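import Mathlib
import Pool.Agent.Helpers29.Lq4

set_option autoImplicit false

namespace Pool.Agent.Results.MP_a4908e_gt.NotLInvariant

open Pool.Agent.Helpers29.Lq

/-- `C_p(X)`: the linear space of all continuous real functions on `X`, a subspace of the product
`X → ℝ` (hence with the topology of pointwise convergence). -/
def Cp (X : Type) [TopologicalSpace X] : Submodule ℝ (X → ℝ) where
  carrier := {f | Continuous f}
  add_mem' := fun hf hg => Continuous.add hf hg
  zero_mem' := continuous_const
  smul_mem' := fun c _ hf => Continuous.const_smul hf c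

theorem T_add {X : Type} (K : Set X) (x0 : X) (F G : Car K → ℝ) :
    T K x0 (F + G) = T K x0 F + T K x0 G := by
  funext p
  rcases p with x | x
  · simp only [T, Sum.elim_inl, Pi.add_apply]
    ring
  · simp only [T, Sum.elim_inr, Pi.add_apply]

theorem T_smul {X : Type} (K : Set X) (x0 : X) (c : ℝ) (F : Car K → ℝ) :
    T K x0 (c • F) = c • T K x0 F := by
  funext p
  rcases p with x | x
  · simp only [T, Sum.elim_inl, Pi.smul_apply, smul_eq_mul]
    ring
  · simp only [T, Sum.elim_inr, Pi.smul_apply]

/-- The linear homeomorphism. -/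
def equiv {X : Type} [TopologicalSpace X] (K : Set X) (x0 : X) :
    Cp (SA K) ≃L[ℝ] Cp (SB K x0) where
  toFun f := ⟨T K x0 f.1, T_continuous_map K x0 f.1 f.2⟩
  map_add' f g := Subtype.ext (T_add K x0 f.1 g.1)
  map_smul' c f := Subtype.ext (T_smul K x0 c f.1)
  invFun g := ⟨Ti K x0 g.1, Ti_continuous_map K x0 g.1 g.2⟩
  left_inv f := Subtype.ext (Ti_T K x0 f.1)
  right_inv g := Subtype.ext (T_Ti K x0 g.1)
  continuous_toFun := ((T_cont K x0).comp continuous_subtype_val).subtype_mk _
  continuous_invFun := ((Ti_cont K x0).comp continuous_subtype_val).subtype_mk _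

/-- There are Tychonoff spaces `X`, `Y` with `C_p(X)` and `C_p(Y)` linearly homeomorphic such that
every subset of `X` is a `G_δ` (so `X` is perfect), while `Y` has a closed point which is not a
`G_δ` (so `Y` is not perfect). -/
theorem result :
    ∃ (X Y : Type) (_ : TopologicalSpace X) (_ : TopologicalSpace Y),
      T35Space X ∧ T35Space Y ∧ Nonempty (Cp X ≃L[ℝ] Cp Y) ∧
      (∀ s : Set X, IsGδ s) ∧
      ∃ y : Y, IsClosed ({y} : Set Y) ∧ ¬ IsGδ ({y} : Set Y) := by
  obtain ⟨A, hA⟩ := exists_A
  have h1 : T35Space (SA (K4 A)) := t35_SA _ (K4_closed A)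
  have h2 : T35Space (SB (K4 A) (.node [])) := t35_SB _ (K4_closed A) _
  exact ⟨SA (K4 A), SB (K4 A) (.node []), inferInstance, inferInstance, h1, h2,
    ⟨equiv _ _⟩, SA4_perfect A, _, isClosed_singleton, SB4_not_perfect A hA⟩

end Pool.Agent.Results.MP_a4908e_gt.NotLInvariant
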